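import Pool.Agent.LPH.CpMain

/-!
# The CP-hierarchy collapses if and only if the polynomial hierarchy collapses (MP_6e1f77_lc)

`Lev` lists the levels `Δ_k` (`.D k`), `Σ_k` (`.S k`), `Π_k` (`.P k`), `UCl a` is the class of the
polynomial hierarchy at the level `a` and `CCl a` the class of the CP-hierarchy at the level `a`.
-/

set_option autoImplicit false

namespace Pool.Agent.Results.MP_6e1f77_lc.CPCollapse

open Pool.Agent.LPH

/-- For `k ≥ 1` and every level `X` of the polynomial hierarchy, `C X ⊆ C Σ_k` if and only if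
`X ⊆ Σ_k`. Hence, for `k ≥ 1`, `C Σ_{k+1} ⊆ C Σ_k` implies that `C Σ_k` contains the whole
CP-hierarchy, and the CP-hierarchy has finitely many classes if and only if the polynomial
hierarchy has finitely many classes. -/
theorem result :
    (∀ k : ℕ, 1 ≤ k → ∀ a : Lev, (CCl a ⊆ CCl (.S k) ↔ UCl a ⊆ UCl (.S k))) ∧
    (∀ k : ℕ, 1 ≤ k → CCl (.S (k + 1)) ⊆ CCl (.S k) → ∀ a : Lev, CCl a ⊆ CCl (.S k)) ∧
    ((Set.range CCl).Finite ↔ (Set.range UCl).Finite) :=
  ⟨fun _ hk a => CCl_subset_iff a hk, fun _ hk h a => CCl_all hk h a, finite_iff⟩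

end Pool.Agent.Results.MP_6e1f77_lc.CPCollapse
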