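import Pool.Agent.LPHI.TransferRel
import Pool.Agent.LPHI.FixMain

/-!
# MP_6e1f77_lc: the inclusions between the classes of the LP-hierarchy

If `L X ⊆ L Y` then `X ⊆ Y` in the polynomial hierarchy; and the inclusions of the chain
`LP = LΔ_1 ⊂ LNP ∩ LcoNP`, `LNP ∪ LcoNP ⊂ LΔ_2` are proper. Everything relativizes.
-/

set_option autoImplicit false

namespace Pool.Agent.Results.MP_6e1f77_lc.Inclusions

open Pool.Agent.LPHI

/-- `R` are the classes of oracle dependent languages, `P` the classes of languages. -/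
def InclusionOrder (R : Level → Set OLang) (P : Level → Set (Set (List Bool))) : Prop :=
  (∀ l l' : Level, LC (R l) ⊆ LC (R l') → P l ⊆ P l') ∧
  ((Set.range fun l => LC (R l)).Finite → (Set.range P).Finite) ∧
  LC (R (.delta 0)) ⊂ LC (R (.sigma 1)) ∩ LC (R (.pi 1)) ∧
  ¬ LC (R (.sigma 1)) ⊆ LC (R (.pi 1)) ∧
  ¬ LC (R (.pi 1)) ⊆ LC (R (.sigma 1)) ∧
  LC (R (.sigma 1)) ∪ LC (R (.pi 1)) ⊂ LC (R (.delta 2))

theorem result : InclusionOrder RelPH PH ∧
    ∀ A : Set (List Bool), InclusionOrder (RelPHA A) (PHA A) :=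
  ⟨⟨fun _ _ h => ph_subset_of_lc_subset h, finite_ph_of_finite_lc,
    lc_pc_ssubset_inter goodBase_id fewQ_id, lc_sigma_one_not_subset goodBase_id,
    lc_pi_one_not_subset goodBase_id, lc_union_ssubset goodBase_id⟩,
  fun A => ⟨fun _ _ h => pha_subset_of_lc_subset h, finite_pha_of_finite_lc A,
    lc_pc_ssubset_inter (goodBase_join A) (fewQ_join A), lc_sigma_one_not_subset (goodBase_join A),
    lc_pi_one_not_subset (goodBase_join A), lc_union_ssubset (goodBase_join A)⟩⟩

end Pool.Agent.Results.MP_6e1f77_lc.Inclusions
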