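import Pool.Agent.LPHI.ManyOne

/-!
# MP_6e1f77_lc: the LP-hierarchy collapses to `LΔ_2` under many-one reductions

Every class of the LP-hierarchy is `≤_m^p` each of the classes `LΔ_k`, `LΣ_k`, `LΠ_k`, `k ≥ 2`.
-/

set_option autoImplicit false

namespace Pool.Agent.Results.MP_6e1f77_lc.ManyOneCollapse

open Pool.Agent.LPHI Pool.Agent.PolyTime

/-- `C ≤_m^p D` for classes of languages. -/
def MRed (C D : Set (Set (List Bool))) : Prop :=
  ∀ A ∈ C, ∃ B ∈ D, ∃ f : List Bool → List Bool, FP f ∧ ∀ w, w ∈ A ↔ f w ∈ B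

theorem result : ∀ (l : Level) (k : ℕ),
    MRed (LC (RelPH l)) (LC (RelPH (.delta (k + 2)))) ∧
    MRed (LC (RelPH l)) (LC (RelPH (.sigma (k + 2)))) ∧
    MRed (LC (RelPH l)) (LC (RelPH (.pi (k + 2)))) := by
  intro l k
  have h : ∀ D : Set (Set (List Bool)), LC (RelPH (.delta 2)) ⊆ D → MRed (LC (RelPH l)) D := by
    intro D hD A hA
    obtain ⟨B, hB, f, hf, hf'⟩ := many_one l A hA
    exact ⟨B, hD hB, f, hf, hf'⟩
  exact ⟨h _ (lc_mono (delta_two_subset_delta _ k)), h _ (lc_mono (delta_two_subset_sigma _ k)),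
    h _ (lc_mono (delta_two_subset_pi _ k))⟩

end Pool.Agent.Results.MP_6e1f77_lc.ManyOneCollapse
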