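import Pool.Agent.LPHI.Final

/-!
# MP_6e1f77_lc: an oracle relative to which the LP-hierarchy has exactly four classes

There is an oracle `A` with `P^A = PH^A` such that the LP-hierarchy relative to `A` consists of
exactly four classes: `LP`, `LNP`, `LcoNP` and `LΔ_2`.
-/

set_option autoImplicit false

namespace Pool.Agent.Results.MP_6e1f77_lc.OracleCollapse

open Pool.Agent.LPHI

theorem result : ∃ A : Set (List Bool),
    (∀ l : Level, PHA A l = PHA A (.delta 0)) ∧
    Set.range (fun l => LC (RelPHA A l)) = {LC (RelPHA A (.delta 0)), LC (RelPHA A (.sigma 1)),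
      LC (RelPHA A (.pi 1)), LC (RelPHA A (.delta 2))} ∧
    (Set.range (fun l => LC (RelPHA A l))).ncard = 4 ∧
    ∀ k : ℕ, LC (RelPHA A (.delta (k + 2))) = LC (RelPHA A (.delta 2)) ∧
      LC (RelPHA A (.sigma (k + 2))) = LC (RelPHA A (.delta 2)) ∧
      LC (RelPHA A (.pi (k + 2))) = LC (RelPHA A (.delta 2)) := by
  obtain ⟨A, h1, h2⟩ := exists_oracle
  refine ⟨A, h2, range_eq_of h1, ?_, lc_delta_two_of h1⟩
  rw [range_eq_of h1]
  exact ncard_eq_four (firstLevels_rel A)

end Pool.Agent.Results.MP_6e1f77_lc.OracleCollapse
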